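import Pool.Agent.H567.PP.Stm

/-!
# Project PP (helper567): squares (PP-12), by helper187
-/

set_option autoImplicit false

namespace Pool.Agent.H187.PP

open Finset
open Pool.Agent.helper24_UT (tw)
open Pool.Agent.H376R2.MR (er)
open Pool.Agent.H567.PP

lemma tw_mul (t : ℝ) {a b : ℕ} (ha : 1 ≤ a) (hb : 1 ≤ b) :
    tw t ((a * b : ℕ) : ℝ) = tw t a * tw t b := by
  have ha' : (a : ℝ) ≠ 0 := by exact_mod_cast (by omega : a ≠ 0)
  have hb' : (b : ℝ) ≠ 0 := by exact_mod_cast (by omega : b ≠ 0)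
  unfold tw er
  rw [← Complex.exp_add, Nat.cast_mul, Real.log_mul ha' hb']
  congr 1
  push_cast
  ring

lemma norm_tw (t x : ℝ) : ‖tw t x‖ = 1 := by
  unfold tw er
  exact Complex.norm_exp_ofReal_mul_I _

lemma rad_dvd (q : ℕ) : rad q ∣ q := Nat.prod_primeFactors_dvd q

lemma rad_ne (q : ℕ) : rad q ≠ 0 :=
  Finset.prod_ne_zero_iff.2 fun _ hp => (Nat.prime_of_mem_primeFactors hp).ne_zero

lemma rad_le {d q : ℕ} (hq : q ≠ 0) (h : d ∣ q) : rad d ≤ rad q := by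
  apply Nat.le_of_dvd (Nat.pos_of_ne_zero (rad_ne q))
  exact Finset.prod_dvd_prod_of_subset _ _ _ (Nat.primeFactors_mono h hq)

lemma coprime_rad {m q : ℕ} (hq : q ≠ 0) : m.Coprime q ↔ Nat.gcd m (rad q) = 1 := by
  constructor
  · intro h
    exact Nat.Coprime.coprime_dvd_right (rad_dvd q) h
  · intro h
    refine Nat.Coprime.symm (Nat.coprime_of_dvd fun p hp hpq hpm => ?_)
    have h1 : p ∣ rad q :=
      Finset.dvd_prod_of_mem (fun p => p) (Nat.mem_primeFactors.2 ⟨hp, hpq, hq⟩)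
    have h2 := Nat.dvd_gcd hpm h1
    rw [h] at h2
    exact hp.one_lt.ne' (Nat.dvd_one.1 h2)

lemma mob_sum (n : ℕ) : ∑ e ∈ n.divisors, (ArithmeticFunction.moebius e : ℤ) =
    if n = 1 then 1 else 0 := by
  rw [← ArithmeticFunction.coe_mul_zeta_apply, ArithmeticFunction.moebius_mul_coe_zeta,
    ArithmeticFunction.one_apply]

lemma sum_cop (R M : ℕ) (hR : R ≠ 0) (g : ℕ → ℂ) :
    ∑ m ∈ Icc 1 M, (if Nat.gcd m R = 1 then g m else 0) =
      ∑ e ∈ R.divisors, ((ArithmeticFunction.moebius e : ℤ) : ℂ) * ∑ k ∈ Icc 1 (M / e), g (e * k) := by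
  have h1 : ∀ m : ℕ, (if Nat.gcd m R = 1 then g m else 0) =
      ∑ e ∈ R.divisors, if e ∣ m then ((ArithmeticFunction.moebius e : ℤ) : ℂ) * g m else 0 := by
    intro m
    rw [← Finset.sum_filter, ← Finset.sum_mul]
    have h2 : R.divisors.filter (fun e => e ∣ m) = (Nat.gcd m R).divisors := by
      ext e
      rw [Finset.mem_filter, Nat.mem_divisors, Nat.mem_divisors, Nat.dvd_gcd_iff]
      have h3 : Nat.gcd m R ≠ 0 := Nat.gcd_ne_zero_right hR
      tauto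
    rw [h2, ← Int.cast_sum, mob_sum]
    split_ifs
    · simp
    · simp
  rw [Finset.sum_congr rfl fun m _ => h1 m, Finset.sum_comm]
  refine Finset.sum_congr rfl fun e he => ?_
  have he0 : 0 < e := Nat.pos_of_mem_divisors he
  rw [← Finset.sum_filter, ← Finset.mul_sum]
  congr 1
  symm
  refine Finset.sum_bij (fun k _ => e * k) ?_ ?_ ?_ ?_
  · intro k hk
    rw [Finset.mem_Icc] at hk
    rw [Finset.mem_filter, Finset.mem_Icc]
    refine ⟨⟨Nat.mul_pos he0 hk.1, ?_⟩, dvd_mul_right e k⟩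
    rw [mul_comm]
    exact (Nat.le_div_iff_mul_le he0).1 hk.2
  · intro a _ b _ h
    exact Nat.eq_of_mul_eq_mul_left he0 h
  · intro m hm
    rw [Finset.mem_filter, Finset.mem_Icc] at hm
    obtain ⟨⟨h1, h2⟩, k, rfl⟩ := hm
    refine ⟨k, ?_, rfl⟩
    rw [Finset.mem_Icc]
    refine ⟨Nat.pos_of_ne_zero ?_, ?_⟩
    · rintro rfl
      omega
    · rw [Nat.le_div_iff_mul_le he0, mul_comm]
      exact h2
  · intro k _
    rfl

/-- the growth of the exponential function -/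
lemma growth (η₀ : ℝ) (h0 : 0 < η₀) (h1 : η₀ ≤ 1 / 10) (B : ℕ) : ∃ L₁ : ℝ, 2 ≤ L₁ ∧
    ∀ L : ℝ, L₁ ≤ L → Real.exp (L ^ (1 - η₀)) + 1 ≤ Real.exp (L ^ (1 - η₀ / 2)) / L ^ B := by
  have ha : 0 < 1 - η₀ := by linarith
  -- `L ^ (1 - η₀ / 2) - L ^ (1 - η₀) - B log L - log 2` tends to infinity
  have t1 : Filter.Tendsto (fun L : ℝ => L ^ (η₀ / 2)) Filter.atTop Filter.atTop :=
    tendsto_rpow_atTop (by linarith)
  have t2 : Filter.Tendsto (fun L : ℝ => Real.log L / L ^ (1 - η₀)) Filter.atTop (nhds 0) :=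
    (isLittleO_log_rpow_atTop ha).tendsto_div_nhds_zero
  have e1 := t1.eventually_ge_atTop ((B : ℝ) + 3)
  have e2 := t2.eventually (gt_mem_nhds (zero_lt_one))
  have e3 := (e1.and e2).and (Filter.eventually_ge_atTop (2 : ℝ))
  rw [Filter.eventually_atTop] at e3
  obtain ⟨L₁, hL₁⟩ := e3
  refine ⟨max L₁ 2, le_max_right _ _, fun L hL => ?_⟩
  obtain ⟨⟨h2, h3⟩, h4⟩ := hL₁ L ((le_max_left _ _).trans hL)
  have hL0 : 0 < L := by linarith
  set y : ℝ := L ^ (1 - η₀) with hy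
  have hy1 : 1 ≤ y := Real.one_le_rpow (by linarith) ha.le
  have h5 : L ^ (1 - η₀ / 2) = y * L ^ (η₀ / 2) := by
    rw [hy, ← Real.rpow_add hL0]
    congr 1
    ring
  have h6 : Real.log L ≤ y := by
    rw [div_lt_one (by linarith)] at h3
    exact h3.le
  have hB : (0 : ℝ) ≤ B := Nat.cast_nonneg B
  have h7 : y + 1 + B * Real.log L ≤ L ^ (1 - η₀ / 2) := by
    rw [h5]
    have h8 : y * ((B : ℝ) + 3) ≤ y * L ^ (η₀ / 2) := mul_le_mul_of_nonneg_left h2 (by linarith)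
    nlinarith [mul_le_mul_of_nonneg_left h6 hB]
  rw [le_div_iff₀ (by positivity)]
  have h9 : L ^ B = Real.exp (B * Real.log L) := by
    rw [mul_comm, Real.exp_mul, Real.exp_log hL0, Real.rpow_natCast]
  have h10 : Real.exp y + 1 ≤ Real.exp (y + 1) := by
    rw [Real.exp_add]
    have h11 : 2 ≤ Real.exp 1 := by
      have := Real.add_one_le_exp (1 : ℝ)
      linarith
    have h12 : 1 ≤ Real.exp y := Real.one_le_exp (by linarith)
    nlinarith
  calc (Real.exp y + 1) * L ^ B ≤ Real.exp (y + 1) * Real.exp (B * Real.log L) := by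
        rw [h9]
        exact mul_le_mul_of_nonneg_right h10 (Real.exp_pos _).le
    _ = Real.exp (y + 1 + B * Real.log L) := by rw [← Real.exp_add]
    _ ≤ _ := Real.exp_le_exp.2 h7

lemma exists_prim {q : ℕ} (hq0 : q ≠ 0) (χ : DirichletCharacter ℂ q) (hne : χ ^ 2 ≠ 1) :
    ∃ (d : ℕ) (ψ : DirichletCharacter ℂ d), d ∣ q ∧ 2 ≤ d ∧ ψ.IsPrimitive ∧
      ∀ m : ℕ, m.Coprime q → χ (m : ZMod q) ^ 2 = ψ (m : ZMod d) := by
  have : NeZero q := ⟨hq0⟩
  refine ⟨(χ ^ 2).conductor, (χ ^ 2).primitiveCharacter, (χ ^ 2).conductor_dvd_level, ?_,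
    (χ ^ 2).primitiveCharacter_isPrimitive, ?_⟩
  · have h1 : (χ ^ 2).conductor ≠ 0 := (χ ^ 2).conductor_ne_zero
    have h2 : (χ ^ 2).conductor ≠ 1 := fun h => hne ((χ ^ 2).eq_one_iff_conductor_eq_one.2 h)
    omega
  · intro m hm
    have h1 : IsCoprime (m : ℤ) (q : ℤ) := Nat.isCoprime_iff_coprime.2 hm
    have h2 := (χ ^ 2).primitiveCharacter_apply_of_isCoprime h1
    rw [Int.cast_natCast, Int.cast_natCast] at h2
    rw [h2, MulChar.pow_apply' χ two_ne_zero]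

theorem tb2 : S_TBALL → S_SQNE → S_TB2 := by
  rintro ⟨η₀, hη0, hη1, hT⟩ hS
  refine ⟨η₀ / 2, by linarith, by linarith, ?_⟩
  intro A B K
  obtain ⟨L₀, hL₀, hT'⟩ := hT A B (K + B)
  obtain ⟨L₁, hL₁, hg⟩ := growth η₀ hη0 hη1 B
  refine ⟨max L₀ L₁, hL₀.trans (le_max_left _ _), ?_⟩
  intro L hL q χ t hq8 hχ hrad hqA htA M hM
  have hLL₀ : L₀ ≤ L := (le_max_left _ _).trans hL
  have hLL₁ : L₁ ≤ L := (le_max_right _ _).trans hL
  have hL2 : 2 ≤ L := hL₀.trans hLL₀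
  have hL0 : 0 < L := by linarith
  have hq0 : q ≠ 0 := by
    rintro rfl
    omega
  obtain ⟨d, ψ, hdq, hd2, hprim, hψ⟩ := exists_prim hq0 χ (hS q χ hχ hq8)
  have hdle : d ≤ q := Nat.le_of_dvd (Nat.pos_of_ne_zero hq0) hdq
  have hradd : (rad d : ℝ) ≤ L ^ B := by
    refine le_trans ?_ hrad
    exact_mod_cast rad_le hq0 hdq
  have hval : ∀ m : ℕ, χ (m : ZMod q) ^ 2 * tw t m =
      if Nat.gcd m (rad q) = 1 then ψ (m : ZMod d) * tw t m else 0 := by
    intro m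
    by_cases hm : m.Coprime q
    · rw [if_pos ((coprime_rad hq0).1 hm)]
      congr 1
      exact hψ m hm
    · rw [if_neg fun h => hm ((coprime_rad hq0).2 h)]
      have h1 : ¬ IsUnit (m : ZMod q) := fun h => hm ((ZMod.isUnit_iff_coprime m q).1 h)
      rw [MulChar.map_nonunit χ h1]
      ring
  rw [Finset.sum_congr rfl fun m _ => hval m,
    sum_cop (rad q) M (rad_ne q) (fun m => ψ (m : ZMod d) * tw t m)]
  have hterm : ∀ e ∈ (rad q).divisors, ‖((ArithmeticFunction.moebius e : ℤ) : ℂ) *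
      ∑ k ∈ Icc 1 (M / e), ψ ((e * k : ℕ) : ZMod d) * tw t ((e * k : ℕ) : ℝ)‖ ≤
      M / L ^ (K + B) := by
    intro e he
    have he0 : 0 < e := Nat.pos_of_mem_divisors he
    have heR : e ≤ rad q := Nat.divisor_le he
    have heL : (e : ℝ) ≤ L ^ B := le_trans (by exact_mod_cast heR) hrad
    have h1 : ∑ k ∈ Icc 1 (M / e), ψ ((e * k : ℕ) : ZMod d) * tw t ((e * k : ℕ) : ℝ) =
        (ψ (e : ZMod d) * tw t e) * ∑ k ∈ Icc 1 (M / e), ψ (k : ZMod d) * tw t k := by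
      rw [Finset.mul_sum]
      refine Finset.sum_congr rfl fun k hk => ?_
      rw [Finset.mem_Icc] at hk
      rw [tw_mul t he0 hk.1, Nat.cast_mul, map_mul]
      ring
    rw [h1, norm_mul, norm_mul, norm_mul, norm_tw, mul_one]
    have h2 : ‖((ArithmeticFunction.moebius e : ℤ) : ℂ)‖ ≤ 1 := by
      rw [Complex.norm_intCast]
      exact_mod_cast ArithmeticFunction.abs_moebius_le_one
    have h3 : ‖ψ (e : ZMod d)‖ ≤ 1 := DirichletCharacter.norm_le_one ψ _
    have h4 : Real.exp (L ^ (1 - η₀)) ≤ ((M / e : ℕ) : ℝ) := by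
      have h5 := hg L hLL₁
      have h6 : (M : ℝ) / e ≤ ((M / e : ℕ) : ℝ) + 1 := by
        have h7 : M < (M / e + 1) * e := by
          calc M = e * (M / e) + M % e := (Nat.div_add_mod M e).symm
            _ < e * (M / e) + e := Nat.add_lt_add_left (Nat.mod_lt M he0) _
            _ = (M / e + 1) * e := by ring
        rw [div_le_iff₀ (by exact_mod_cast he0)]
        exact_mod_cast h7.le
      have h7 : Real.exp (L ^ (1 - η₀ / 2)) / L ^ B ≤ (M : ℝ) / e := by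
        exact div_le_div₀ (Nat.cast_nonneg M) hM (by exact_mod_cast he0) heL
      linarith
    have h5 := hT' L hLL₀ d ψ t hd2 hprim hradd
      (le_trans (by exact_mod_cast hdle) hqA) htA (M / e) h4
    have h6 : ((M / e : ℕ) : ℝ) / L ^ (K + B) ≤ M / L ^ (K + B) := by
      refine div_le_div_of_nonneg_right ?_ (by positivity)
      exact_mod_cast Nat.div_le_self M e
    calc ‖((ArithmeticFunction.moebius e : ℤ) : ℂ)‖ * (‖ψ (e : ZMod d)‖ *
          ‖∑ k ∈ Icc 1 (M / e), ψ (k : ZMod d) * tw t k‖)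
        ≤ 1 * (1 * (((M / e : ℕ) : ℝ) / L ^ (K + B))) := by
          gcongr
      _ = ((M / e : ℕ) : ℝ) / L ^ (K + B) := by ring
      _ ≤ _ := h6
  refine (norm_sum_le _ _).trans ((Finset.sum_le_sum hterm).trans ?_)
  rw [Finset.sum_const, nsmul_eq_mul]
  have h8 : (((rad q).divisors.card : ℕ) : ℝ) ≤ L ^ B :=
    le_trans (by exact_mod_cast Nat.card_divisors_le_self (rad q)) hrad
  calc (((rad q).divisors.card : ℕ) : ℝ) * (M / L ^ (K + B)) ≤ L ^ B * (M / L ^ (K + B)) :=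
        mul_le_mul_of_nonneg_right h8 (by positivity)
    _ = M / L ^ K := by
        rw [pow_add]
        field_simp

end Pool.Agent.H187.PP
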